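import Mathlib

set_option autoImplicit false

open Set Topology Filter TopologicalSpace

namespace Pool.Agent.Helper86.ConeRetract

/-- the ambient plane with the sup norm -/
abbrev E := ℝ × ℝ

/-- the plane model of the cone over `K ⊆ [0,1]` with vertex the origin -/
def M (K : Set ℝ) : Set E := {x | ∃ z ∈ K, ∃ s ∈ Icc (0 : ℝ) 1, x = (s * z, s)}

/-- direction -/
noncomputable def dir (x : E) : ℝ := x.1 / x.2

/-- the compact interval -/
def I01 : NonemptyCompacts ℝ := ⟨⟨Icc 0 1, isCompact_Icc⟩, ⟨0, by simp⟩⟩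

lemma mem_I01 {t : ℝ} : t ∈ I01 ↔ 0 ≤ t ∧ t ≤ 1 := Iff.rfl

/-- the general operation; parameters `(c, θ, β, N)` -/
noncomputable def Φ (p : ℝ × ℝ × ℝ × ℝ) (A : NonemptyCompacts E) : NonemptyCompacts E :=
  (A ×ˢ I01).map (fun q : E × ℝ => ((p.1 * p.2.2.2 + q.2 * p.2.1 * q.1.1,
      p.1 + q.2 * p.2.1 * q.1.2) : E)) (by fun_prop) ⊔
  (A ×ˢ I01).map (fun q : E × ℝ => (((p.1 + q.2 * (p.2.2.1 * q.1.2 - p.1)) * p.2.2.2,
      p.1 + q.2 * (p.2.2.1 * q.1.2 - p.1)) : E)) (by fun_prop)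

lemma continuous_Φ : Continuous (fun q : (ℝ × ℝ × ℝ × ℝ) × NonemptyCompacts E => Φ q.1 q.2) := by
  unfold Φ
  fun_prop

lemma mem_Φ {c θ β N : ℝ} {A : NonemptyCompacts E} {y : E} :
    y ∈ Φ (c, θ, β, N) A ↔
      (∃ x ∈ A, ∃ t, 0 ≤ t ∧ t ≤ 1 ∧ y = (c * N + t * θ * x.1, c + t * θ * x.2)) ∨
      (∃ x ∈ A, ∃ t, 0 ≤ t ∧ t ≤ 1 ∧ y = ((c + t * (β * x.2 - c)) * N, c + t * (β * x.2 - c))) := by
  unfold Φ
  rw [← SetLike.mem_coe, NonemptyCompacts.coe_sup, mem_union, NonemptyCompacts.coe_map,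
    NonemptyCompacts.coe_map, NonemptyCompacts.coe_prod]
  constructor
  · rintro (⟨⟨x, t⟩, ⟨hx, ht⟩, rfl⟩ | ⟨⟨x, t⟩, ⟨hx, ht⟩, rfl⟩)
    · exact Or.inl ⟨x, hx, t, ht.1, ht.2, rfl⟩
    · exact Or.inr ⟨x, hx, t, ht.1, ht.2, rfl⟩
  · rintro (⟨x, hx, t, h0, h1, rfl⟩ | ⟨x, hx, t, h0, h1, rfl⟩)
    · exact Or.inl ⟨⟨x, t⟩, ⟨hx, ⟨h0, h1⟩⟩, rfl⟩
    · exact Or.inr ⟨⟨x, t⟩, ⟨hx, ⟨h0, h1⟩⟩, rfl⟩

/-- every value of the operation is connected -/
lemma connected_Φ (c θ β N : ℝ) (A : NonemptyCompacts E) :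
    IsConnected (Φ (c, θ, β, N) A : Set E) := by
  refine ⟨(Φ (c, θ, β, N) A).nonempty, ?_⟩
  have hI : IsPreconnected (Icc (0 : ℝ) 1) := isPreconnected_Icc
  refine isPreconnected_of_forall ((c * N, c) : E) ?_
  intro y hy
  rw [SetLike.mem_coe, mem_Φ] at hy
  rcases hy with ⟨x, hx, t, h0, h1, rfl⟩ | ⟨x, hx, t, h0, h1, rfl⟩
  · refine ⟨(fun t : ℝ => ((c * N + t * θ * x.1, c + t * θ * x.2) : E)) '' Icc 0 1, ?_, ?_, ?_, ?_⟩
    · rintro _ ⟨u, hu, rfl⟩
      rw [SetLike.mem_coe, mem_Φ]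
      exact Or.inl ⟨x, hx, u, hu.1, hu.2, rfl⟩
    · exact ⟨0, by simp, by simp⟩
    · exact ⟨t, ⟨h0, h1⟩, rfl⟩
    · exact hI.image _ (by fun_prop)
  · refine ⟨(fun t : ℝ => (((c + t * (β * x.2 - c)) * N, c + t * (β * x.2 - c)) : E)) '' Icc 0 1,
      ?_, ?_, ?_, ?_⟩
    · rintro _ ⟨u, hu, rfl⟩
      rw [SetLike.mem_coe, mem_Φ]
      exact Or.inr ⟨x, hx, u, hu.1, hu.2, rfl⟩
    · exact ⟨0, by simp, by simp⟩
    · exact ⟨t, ⟨h0, h1⟩, rfl⟩
    · exact hI.image _ (by fun_prop)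

/-- the hull towards the vertex -/
noncomputable def hull (A : NonemptyCompacts E) : NonemptyCompacts E := Φ (0, 1, 0, 0) A

lemma mem_hull {A : NonemptyCompacts E} {y : E} :
    y ∈ hull A ↔ ∃ x ∈ A, ∃ t, 0 ≤ t ∧ t ≤ 1 ∧ y = (t * x.1, t * x.2) := by
  unfold hull
  rw [mem_Φ]
  constructor
  · rintro (⟨x, hx, t, h0, h1, rfl⟩ | ⟨x, hx, t, h0, h1, rfl⟩)
    · exact ⟨x, hx, t, h0, h1, by simp⟩
    · exact ⟨x, hx, 0, le_rfl, zero_le_one, by simp⟩
  · rintro ⟨x, hx, t, h0, h1, rfl⟩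
    exact Or.inl ⟨x, hx, t, h0, h1, by simp⟩

/-! ### suprema and infima -/

/-- the supremum of a function on a compact set -/
noncomputable def supf (f : E → ℝ) (A : NonemptyCompacts E) : ℝ := sSup (f '' A)

noncomputable def inff (f : E → ℝ) (A : NonemptyCompacts E) : ℝ := sInf (f '' A)

lemma continuous_supf {f : E → ℝ} (hf : Continuous f) : Continuous (supf f) := by
  have hex : ∀ A : NonemptyCompacts E, ∃ x ∈ A, supf f A = f x := fun A => by
    obtain ⟨x, hx, h, -⟩ := A.isCompact.exists_sSup_image_eq_and_ge A.nonempty hf.continuousOn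
    exact ⟨x, hx, h⟩
  have hub : ∀ (A : NonemptyCompacts E), ∀ x ∈ A, f x ≤ supf f A := fun A x hx =>
    le_csSup (A.isCompact.image hf).bddAbove ⟨x, hx, rfl⟩
  rw [continuous_iff_continuousAt]
  intro A
  refine tendsto_order.mpr ⟨?_, ?_⟩
  · intro y hy
    obtain ⟨x, hx, hx2⟩ := hex A
    have h1 : IsOpen {B : NonemptyCompacts E | ((B : Set E) ∩ f ⁻¹' Ioi y).Nonempty} :=
      NonemptyCompacts.isOpen_inter_nonempty_of_isOpen (isOpen_Ioi.preimage hf)
    have h2 : A ∈ {B : NonemptyCompacts E | ((B : Set E) ∩ f ⁻¹' Ioi y).Nonempty} :=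
      ⟨x, hx, by rw [mem_preimage, ← hx2]; exact hy⟩
    filter_upwards [h1.mem_nhds h2] with B hB
    obtain ⟨w, hw1, hw2⟩ := hB
    exact lt_of_lt_of_le hw2 (hub B w hw1)
  · intro y hy
    have h1 : IsOpen {B : NonemptyCompacts E | (B : Set E) ⊆ f ⁻¹' Iio y} :=
      NonemptyCompacts.isOpen_subsets_of_isOpen (isOpen_Iio.preimage hf)
    have h2 : A ∈ {B : NonemptyCompacts E | (B : Set E) ⊆ f ⁻¹' Iio y} :=
      fun x hx => lt_of_le_of_lt (hub A x hx) hy
    filter_upwards [h1.mem_nhds h2] with B hB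
    obtain ⟨x, hx, hx2⟩ := hex B
    rw [hx2]
    exact hB hx

lemma continuous_inff {f : E → ℝ} (hf : Continuous f) : Continuous (inff f) := by
  have h : inff f = fun A => - supf (fun x => - f x) A := by
    funext A
    unfold inff supf
    rw [Real.sInf_def]
    congr 2
    ext y
    simp only [Set.mem_neg, mem_image]
    constructor
    · rintro ⟨x, hx, h⟩
      exact ⟨x, hx, by rw [h]; ring⟩
    · rintro ⟨x, hx, h⟩
      exact ⟨x, hx, by rw [← h]; ring⟩
  rw [h]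
  exact (continuous_supf hf.neg).neg

/-- lowest height -/
noncomputable def low (A : NonemptyCompacts E) : ℝ := inff Prod.snd A

lemma continuous_low : Continuous low := continuous_inff continuous_snd

lemma low_le {A : NonemptyCompacts E} {x : E} (hx : x ∈ A) : low A ≤ x.2 :=
  csInf_le (A.isCompact.image continuous_snd).bddBelow ⟨x, hx, rfl⟩

lemma exists_low (A : NonemptyCompacts E) : ∃ x ∈ A, low A = x.2 := by
  obtain ⟨x, hx, h, -⟩ := A.isCompact.exists_sInf_image_eq_and_le A.nonempty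
    continuous_snd.continuousOn
  exact ⟨x, hx, h⟩

/-- largest direction -/
noncomputable def mx (A : NonemptyCompacts E) : ℝ := supf dir A

/-- smallest direction -/
noncomputable def mn (A : NonemptyCompacts E) : ℝ := inff dir A

/-- sets of positive height -/
def Pos (A : NonemptyCompacts E) : Prop := ∀ x ∈ A, 0 < x.2

lemma Pos.low_pos {A : NonemptyCompacts E} (h : Pos A) : 0 < low A := by
  obtain ⟨x, hx, h1⟩ := exists_low A
  rw [h1]
  exact h x hx

lemma Pos.continuousOn {A : NonemptyCompacts E} (h : Pos A) : ContinuousOn dir (A : Set E) := by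
  unfold dir
  refine ContinuousOn.div continuous_fst.continuousOn continuous_snd.continuousOn ?_
  intro x hx
  exact (h x hx).ne'

lemma Pos.le_mx {A : NonemptyCompacts E} (h : Pos A) {x : E} (hx : x ∈ A) : dir x ≤ mx A :=
  le_csSup (A.isCompact.image_of_continuousOn h.continuousOn).bddAbove ⟨x, hx, rfl⟩

lemma Pos.mn_le {A : NonemptyCompacts E} (h : Pos A) {x : E} (hx : x ∈ A) : mn A ≤ dir x :=
  csInf_le (A.isCompact.image_of_continuousOn h.continuousOn).bddBelow ⟨x, hx, rfl⟩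

lemma Pos.exists_mx {A : NonemptyCompacts E} (h : Pos A) : ∃ x ∈ A, mx A = dir x := by
  obtain ⟨x, hx, h, -⟩ := A.isCompact.exists_sSup_image_eq_and_ge A.nonempty h.continuousOn
  exact ⟨x, hx, h⟩

lemma Pos.exists_mn {A : NonemptyCompacts E} (h : Pos A) : ∃ x ∈ A, mn A = dir x := by
  obtain ⟨x, hx, h, -⟩ := A.isCompact.exists_sInf_image_eq_and_le A.nonempty h.continuousOn
  exact ⟨x, hx, h⟩

lemma Pos.eventually {A : NonemptyCompacts E} (h : Pos A) :
    ∀ᶠ B in 𝓝 A, ∀ x ∈ B, low A / 2 < x.2 := by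
  have h1 : IsOpen {B : NonemptyCompacts E | (B : Set E) ⊆ Prod.snd ⁻¹' Ioi (low A / 2)} :=
    NonemptyCompacts.isOpen_subsets_of_isOpen (isOpen_Ioi.preimage continuous_snd)
  have h2 : A ∈ {B : NonemptyCompacts E | (B : Set E) ⊆ Prod.snd ⁻¹' Ioi (low A / 2)} := by
    intro x hx
    have h3 := low_le hx
    have h4 := h.low_pos
    show low A / 2 < x.2
    linarith
  filter_upwards [h1.mem_nhds h2] with B hB x hx
  exact hB hx

/-- truncated direction -/
noncomputable def dirt (δ : ℝ) (x : E) : ℝ := x.1 / max x.2 δ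

lemma continuous_dirt {δ : ℝ} (hδ : 0 < δ) : Continuous (dirt δ) := by
  unfold dirt
  refine Continuous.div (by fun_prop) (by fun_prop) ?_
  intro x
  exact (lt_of_lt_of_le hδ (le_max_right _ _)).ne'

lemma image_dir_eq {δ : ℝ} {A : NonemptyCompacts E} (h : ∀ x ∈ A, δ < x.2) :
    dir '' (A : Set E) = dirt δ '' (A : Set E) := by
  apply Set.image_congr
  intro x hx
  unfold dir dirt
  rw [max_eq_left (h x hx).le]

lemma Pos.continuousAt_mx {A : NonemptyCompacts E} (h : Pos A) : ContinuousAt mx A := by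
  have h1 : ContinuousAt (supf (dirt (low A / 2))) A :=
    (continuous_supf (continuous_dirt (half_pos h.low_pos))).continuousAt
  refine h1.congr ?_
  filter_upwards [h.eventually] with B hB
  unfold mx supf
  rw [image_dir_eq hB]

lemma Pos.continuousAt_mn {A : NonemptyCompacts E} (h : Pos A) : ContinuousAt mn A := by
  have h1 : ContinuousAt (inff (dirt (low A / 2))) A :=
    (continuous_inff (continuous_dirt (half_pos h.low_pos))).continuousAt
  refine h1.congr ?_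
  filter_upwards [h.eventually] with B hB
  unfold mn inff
  rw [image_dir_eq hB]

/-- clamp to the unit interval -/
noncomputable def cl (t : ℝ) : ℝ := min (max t 0) 1

lemma continuous_cl : Continuous cl := by unfold cl; fun_prop

lemma cl_nonneg (t : ℝ) : 0 ≤ cl t := le_min (le_max_right _ _) zero_le_one

lemma cl_le_one (t : ℝ) : cl t ≤ 1 := min_le_right _ _

lemma cl_of_nonpos {t : ℝ} (h : t ≤ 0) : cl t = 0 := by
  unfold cl
  rw [max_eq_right h]
  exact min_eq_left zero_le_one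

lemma cl_of_one_le {t : ℝ} (h : 1 ≤ t) : cl t = 1 := by
  unfold cl
  rw [max_eq_left (zero_le_one.trans h)]
  exact min_eq_right h

end Pool.Agent.Helper86.ConeRetract
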