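import Pool.Agent.Helper86.ConeRetract.Plane

set_option autoImplicit false

open Set Topology Filter TopologicalSpace

namespace Pool.Agent.Helper86.ConeRetract

universe u v

/-- The equivalence relation on `Z × [0,1]` which collapses `Z × {1}` to a point. -/
def coneSetoid (Z : Type u) : Setoid (Z × unitInterval) where
  r p q := p = q ∨ (p.2 = 1 ∧ q.2 = 1)
  iseqv :=
    { refl := fun _ => Or.inl rfl
      symm := by
        rintro p q (h | h)
        · exact Or.inl h.symm
        · exact Or.inr ⟨h.2, h.1⟩
      trans := by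
        rintro p q r (h | h) (h' | h')
        · exact Or.inl (h.trans h')
        · exact Or.inr ⟨h ▸ h'.1, h'.2⟩
        · exact Or.inr ⟨h.1, h' ▸ h.2⟩
        · exact Or.inr ⟨h.1, h'.2⟩ }

/-- The cone over `Z`: the quotient `Z × [0,1] / (Z × {1})` with the quotient topology. -/
abbrev Cone (Z : Type u) : Type u := Quotient (coneSetoid Z)

/-- `C(M)` is a retract of `2^M`: there is a continuous map `r` from the hyperspace `2^M` of
nonempty compact subsets of `M` (Vietoris topology) to its subspace `C(M)` of connected members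
which restricts to the identity on `C(M)`. -/
def HyperRetract (M : Type u) [TopologicalSpace M] : Prop :=
  ∃ r : NonemptyCompacts M → {A : NonemptyCompacts M // IsConnected (A : Set M)},
    Continuous r ∧ ∀ A : {A : NonemptyCompacts M // IsConnected (A : Set M)}, r A.1 = A

/-- transfer from the plane -/
theorem hyperRetract_of_embedding {Y : Type u} [TopologicalSpace Y] {K : Set ℝ} {ι : Y → E}
    (hι : IsEmbedding ι) (G : Good K (range ι)) : HyperRetract Y := by
  have hc : Continuous ι := hι.continuous
  have hsub : ∀ A : NonemptyCompacts Y,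
      ((A.map ι hc : NonemptyCompacts E) : Set E) ⊆ range ι := by
    intro A
    rw [NonemptyCompacts.coe_map]
    exact image_subset_range _ _
  have hex : ∀ A : NonemptyCompacts Y, ∃ B : NonemptyCompacts Y,
      B.map ι hc = ρ K (range ι) (A.map ι hc) := by
    intro A
    have h1 : ((ρ K (range ι) (A.map ι hc) : NonemptyCompacts E) : Set E) ⊆ range ι :=
      G.ρ_subset (hsub A)
    have h2 : ι '' (ι ⁻¹' (ρ K (range ι) (A.map ι hc) : Set E)) = ρ K (range ι) (A.map ι hc) :=
      image_preimage_eq_of_subset h1
    have h3 : IsCompact (ι ⁻¹' (ρ K (range ι) (A.map ι hc) : Set E)) := by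
      rw [hι.isCompact_iff, h2]
      exact (ρ K (range ι) (A.map ι hc)).isCompact
    have h4 : (ι ⁻¹' (ρ K (range ι) (A.map ι hc) : Set E)).Nonempty := by
      obtain ⟨y, hy⟩ := (ρ K (range ι) (A.map ι hc)).nonempty
      obtain ⟨x, rfl⟩ := h1 hy
      exact ⟨x, hy⟩
    refine ⟨⟨⟨_, h3⟩, h4⟩, ?_⟩
    apply SetLike.coe_injective
    rw [NonemptyCompacts.coe_map]
    exact h2
  choose r hrr using hex
  have hconn : ∀ A, IsConnected (r A : Set Y) := by
    intro A
    refine ⟨(r A).nonempty, ?_⟩
    have h1 : IsPreconnected (ι '' (r A : Set Y)) := by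
      have h2 := hrr A
      rw [← NonemptyCompacts.coe_map hc, h2]
      exact (connected_ρ _).isPreconnected
    rwa [hι.isPreconnected_image] at h1
  refine ⟨fun A => ⟨r A, hconn A⟩, ?_, ?_⟩
  · refine Continuous.subtype_mk ?_ _
    rw [(hι.nonemptyCompacts_map).continuous_iff]
    have h1 : (NonemptyCompacts.map ι hι.continuous ∘ fun A => r A) =
        fun A => ρ K (range ι) (A.map ι hc) := funext hrr
    rw [h1]
    exact G.continuousOn_ρ.comp_continuous hc.nonemptyCompacts_map hsub
  · rintro ⟨A, hA⟩
    apply Subtype.ext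
    show r A = A
    apply hι.nonemptyCompacts_map.injective
    show (r A).map ι hc = A.map ι hc
    rw [hrr A]
    apply G.ρ_of_connected (hsub A)
    rw [NonemptyCompacts.coe_map]
    exact hA.isPreconnected.image _ hc.continuousOn

/-- the retraction property is topological -/
theorem HyperRetract.of_homeomorph {X : Type u} {Y : Type v} [TopologicalSpace X]
    [TopologicalSpace Y] (e : X ≃ₜ Y) (h : HyperRetract Y) : HyperRetract X := by
  obtain ⟨r, hr, hr2⟩ := h
  have hconn : ∀ B : NonemptyCompacts Y, IsConnected (B : Set Y) →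
      IsConnected ((B.map e.symm e.symm.continuous : NonemptyCompacts X) : Set X) := by
    intro B hB
    rw [NonemptyCompacts.coe_map]
    exact hB.image _ e.symm.continuous.continuousOn
  have hconn' : ∀ B : NonemptyCompacts X, IsConnected (B : Set X) →
      IsConnected ((B.map e e.continuous : NonemptyCompacts Y) : Set Y) := by
    intro B hB
    rw [NonemptyCompacts.coe_map]
    exact hB.image _ e.continuous.continuousOn
  refine ⟨fun A => ⟨(r (A.map e e.continuous)).1.map e.symm e.symm.continuous,
    hconn _ (r (A.map e e.continuous)).2⟩, ?_, ?_⟩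
  · refine Continuous.subtype_mk ?_ _
    exact e.symm.continuous.nonemptyCompacts_map.comp
      (continuous_subtype_val.comp (hr.comp e.continuous.nonemptyCompacts_map))
  · rintro ⟨A, hA⟩
    apply Subtype.ext
    show (r (A.map e e.continuous)).1.map e.symm e.symm.continuous = A
    have h1 := hr2 ⟨A.map e e.continuous, hconn' A hA⟩
    simp only at h1
    rw [h1]
    apply SetLike.coe_injective
    rw [NonemptyCompacts.coe_map, NonemptyCompacts.coe_map]
    simp [image_image]

section Cone

variable (Z : Type u) [TopologicalSpace Z]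

/-- the map of the cone to the plane -/
noncomputable def coneMap (f : Z → ℝ) : Cone Z → E :=
  Quotient.lift (fun p : Z × unitInterval => ((1 - (p.2 : ℝ)) * f p.1, 1 - (p.2 : ℝ))) (by
    rintro p q (h | ⟨h1, h2⟩)
    · rw [h]
    · simp [h1, h2])

variable {Z}

lemma continuous_coneMap {f : Z → ℝ} (hf : Continuous f) : Continuous (coneMap Z f) := by
  apply Continuous.quotient_lift
  fun_prop

lemma injective_coneMap {f : Z → ℝ} (hf : Function.Injective f) :
    Function.Injective (coneMap Z f) := by
  intro a b
  induction a using Quotient.inductionOn with | _ p => ?_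
  induction b using Quotient.inductionOn with | _ q => ?_
  intro h
  have h' : (((1 - (p.2 : ℝ)) * f p.1, 1 - (p.2 : ℝ)) : E) =
    ((1 - (q.2 : ℝ)) * f q.1, 1 - (q.2 : ℝ)) := h
  rw [Prod.mk.injEq] at h'
  obtain ⟨h1, h2⟩ := h'
  have h3 : (p.2 : ℝ) = q.2 := by linarith
  have h4 : p.2 = q.2 := Subtype.ext h3
  apply Quotient.sound
  by_cases h5 : p.2 = 1
  · exact Or.inr ⟨h5, h4 ▸ h5⟩
  · left
    have h6 : (1 - (p.2 : ℝ)) ≠ 0 := by
      intro h6
      apply h5
      apply Subtype.ext
      show (p.2 : ℝ) = 1
      linarith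
    rw [← h3] at h1
    have h7 := mul_left_cancel₀ h6 h1
    exact Prod.ext (hf h7) h4

lemma range_coneMap {f : Z → ℝ} : range (coneMap Z f) = M (range f) := by
  ext x
  constructor
  · rintro ⟨a, rfl⟩
    induction a using Quotient.inductionOn with | _ p => ?_
    refine ⟨f p.1, ⟨p.1, rfl⟩, 1 - (p.2 : ℝ), ⟨?_, ?_⟩, rfl⟩
    · have := p.2.2.2
      linarith
    · have := p.2.2.1
      linarith
  · rintro ⟨_, ⟨z, rfl⟩, s, ⟨h0, h1⟩, rfl⟩
    refine ⟨Quotient.mk _ (z, ⟨1 - s, by constructor <;> linarith⟩), ?_⟩
    show (((1 - (1 - s)) * f z, 1 - (1 - s)) : E) = (s * f z, s)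
    rw [sub_sub_cancel]

/-- a nonempty compact metrizable totally disconnected space embeds in `[0,1]` -/
lemma exists_real_embedding [CompactSpace Z] [MetrizableSpace Z] [TotallyDisconnectedSpace Z] :
    ∃ f : Z → ℝ, Continuous f ∧ Function.Injective f ∧ range f ⊆ Icc 0 1 := by
  classical
  have : T2Space Z := inferInstance
  have h2 : SecondCountableTopology Z := by
    let _ := metrizableSpaceMetric Z
    infer_instance
  have hcount : Countable (Clopens Z) := Clopens.countable_iff_secondCountable.mpr h2
  have hne : Nonempty (Clopens Z) := ⟨⊤⟩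
  obtain ⟨e, he⟩ := exists_surjective_nat (Clopens Z)
  -- the map to the Cantor space
  let g : Z → (ℕ → Bool) := fun z n => decide (z ∈ e n)
  have hg : Continuous g := by
    refine continuous_pi fun n => ?_
    rw [continuous_discrete_rng]
    intro b
    cases b
    · have : (fun z => decide (z ∈ e n)) ⁻¹' {false} = (e n : Set Z)ᶜ := by
        ext z; simp
      rw [this]
      exact (e n).isClopen.compl.isOpen
    · have : (fun z => decide (z ∈ e n)) ⁻¹' {true} = (e n : Set Z) := by
        ext z; simp
      rw [this]
      exact (e n).isClopen.isOpen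
  have hgi : Function.Injective g := by
    intro a b hab
    by_contra hne
    have hTS : TotallySeparatedSpace Z := inferInstance
    obtain ⟨U, hU, ha, hb⟩ := exists_isClopen_of_totally_separated hne
    obtain ⟨n, hn⟩ := he ⟨U, hU⟩
    have h1 := congrFun hab n
    simp only [g, hn] at h1
    have h2 : a ∈ (⟨U, hU⟩ : Clopens Z) := ha
    have h3 : b ∉ (⟨U, hU⟩ : Clopens Z) := hb
    simp [h2, h3] at h1
  refine ⟨fun z => (cantorSetHomeomorphNatToBool.symm (g z) : ℝ), ?_, ?_, ?_⟩
  · exact continuous_subtype_val.comp (cantorSetHomeomorphNatToBool.symm.continuous.comp hg)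
  · intro a b hab
    exact hgi (cantorSetHomeomorphNatToBool.symm.injective (Subtype.ext hab))
  · rintro _ ⟨z, rfl⟩
    exact cantorSet_subset_unitInterval (cantorSetHomeomorphNatToBool.symm (g z)).2

/-- the plane model -/
theorem cone_embedding [CompactSpace Z] [MetrizableSpace Z] [TotallyDisconnectedSpace Z] :
    ∃ (K : Set ℝ) (ι : Cone Z → E), K ⊆ Icc 0 1 ∧ IsTotallyDisconnected K ∧ IsClosed K ∧
      IsEmbedding ι ∧ range ι = M K := by
  obtain ⟨f, hf, hfi, hfr⟩ := exists_real_embedding (Z := Z)
  refine ⟨range f, coneMap Z f, hfr, ?_, (isCompact_range hf).isClosed, ?_, range_coneMap⟩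
  · rw [(hf.isClosedEmbedding hfi).isEmbedding.isTotallyDisconnected_range]
    infer_instance
  · exact ((continuous_coneMap hf).isClosedEmbedding (injective_coneMap hfi)).isEmbedding

/-- subcontinua of the cone over a zero-dimensional compactum -/
theorem hyperRetract_subcontinuum [CompactSpace Z] [MetrizableSpace Z]
    [TotallyDisconnectedSpace Z] (Y : Set (Cone Z)) (hY : IsClosed Y) (hYc : IsConnected Y) :
    HyperRetract Y := by
  obtain ⟨K, ι, h1, h2, h3, h4, h5⟩ := cone_embedding (Z := Z)
  have hr : range (ι ∘ (Subtype.val : Y → Cone Z)) = ι '' Y := by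
    rw [range_comp, Subtype.range_val]
  refine hyperRetract_of_embedding (K := K) (h4.comp IsEmbedding.subtypeVal) ?_
  rw [hr]
  exact { unit := h1
          td := h2
          closed := h3
          compact := hY.isCompact.image h4.continuous
          sub := by rw [← h5]; exact image_subset_range _ _
          conn := hYc.isPreconnected.image _ h4.continuous.continuousOn }

end Cone

end Pool.Agent.Helper86.ConeRetract
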