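import Pool.Agent.Helper86.ConeRetract.Cone

set_option autoImplicit false

open Set Topology Filter TopologicalSpace

namespace Pool.Agent.Helper86.ConeRetract

universe u v

variable {Z : Type u} [TopologicalSpace Z]

lemma cone_connected [Nonempty Z] : ConnectedSpace (Cone Z) := by
  obtain ⟨z0⟩ := ‹Nonempty Z›
  have hpre : PreconnectedSpace (Cone Z) := by
    constructor
    refine isPreconnected_of_forall (Quotient.mk (coneSetoid Z) (z0, 1)) ?_
    intro y _
    induction y using Quotient.inductionOn with | _ p => ?_
    refine ⟨(fun s : unitInterval => Quotient.mk (coneSetoid Z) (p.1, s)) '' univ,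
      subset_univ _, ⟨1, trivial, ?_⟩, ⟨p.2, trivial, rfl⟩, ?_⟩
    · apply Quotient.sound
      exact Or.inr ⟨rfl, rfl⟩
    · apply isPreconnected_univ.image
      apply Continuous.continuousOn
      exact continuous_quotient_mk'.comp (by fun_prop)
  exact { toPreconnectedSpace := hpre, toNonempty := ⟨Quotient.mk _ (z0, 1)⟩ }

lemma cone_not_locallyConnected [CompactSpace Z] [MetrizableSpace Z] [TotallyDisconnectedSpace Z]
    [Infinite Z] : ¬ LocallyConnectedSpace (Cone Z) := by
  intro hlc
  obtain ⟨f, hf, hfi, hfr⟩ := exists_real_embedding (Z := Z)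
  have hrange : IsTotallyDisconnected (range f) := by
    rw [(hf.isClosedEmbedding hfi).isEmbedding.isTotallyDisconnected_range]
    infer_instance
  have hcm := continuous_coneMap hf
  set U : Set (Cone Z) := {a | 0 < (coneMap Z f a).2} with hU
  have hUo : IsOpen U := isOpen_lt continuous_const (continuous_snd.comp hcm)
  have hdir : ContinuousOn (fun a => dir (coneMap Z f a)) U := by
    unfold dir
    refine ContinuousOn.div (continuous_fst.comp hcm).continuousOn
      (continuous_snd.comp hcm).continuousOn ?_
    intro a ha
    exact (show 0 < (coneMap Z f a).2 from ha).ne'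
  have hbase : ∀ z : Z, dir (coneMap Z f (Quotient.mk _ (z, 0))) = f z := by
    intro z
    show ((1 - ((0 : unitInterval) : ℝ)) * f z) / (1 - ((0 : unitInterval) : ℝ)) = f z
    simp
  have hbU : ∀ z : Z, Quotient.mk (coneSetoid Z) (z, 0) ∈ U := by
    intro z
    show 0 < 1 - ((0 : unitInterval) : ℝ)
    simp
  have hsing : ∀ z : Z, IsOpen ({z} : Set Z) := by
    intro z
    have h1 : IsOpen (connectedComponentIn U (Quotient.mk (coneSetoid Z) (z, 0))) :=
      hUo.connectedComponentIn
    have h2 : {z} = (fun w : Z => Quotient.mk (coneSetoid Z) (w, 0)) ⁻¹'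
        (connectedComponentIn U (Quotient.mk (coneSetoid Z) (z, 0))) := by
      ext w
      rw [mem_singleton_iff, mem_preimage]
      constructor
      · rintro rfl
        exact mem_connectedComponentIn (hbU w)
      · intro hw
        have h3 : ((fun a => dir (coneMap Z f a)) ''
            (connectedComponentIn U (Quotient.mk (coneSetoid Z) (z, 0)))).Subsingleton := by
          apply hrange
          · rintro _ ⟨a, ha, rfl⟩
            have h4 := connectedComponentIn_subset _ _ ha
            have h5 : coneMap Z f a ∈ M (range f) := by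
              rw [← range_coneMap]
              exact ⟨a, rfl⟩
            exact M.dir_mem h5 h4
          · exact isPreconnected_connectedComponentIn.image _
              (hdir.mono (connectedComponentIn_subset _ _))
        have h4 := h3 ⟨_, hw, rfl⟩ ⟨_, mem_connectedComponentIn (hbU z), rfl⟩
        simp only [hbase] at h4
        exact hfi h4
    rw [h2]
    exact h1.preimage (continuous_quotient_mk'.comp (by fun_prop))
  have hd : DiscreteTopology Z := discreteTopology_iff_isOpen_singleton.mpr hsing
  have hfin : Finite Z := finite_of_compact_of_discrete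
  exact not_finite Z

/-- a space with exactly one limit point is totally disconnected -/
lemma totallyDisconnected_of_one [T1Space Z] (h : ∃! z : Z, AccPt z (𝓟 univ)) :
    TotallyDisconnectedSpace Z := by
  obtain ⟨z0, -, huniq⟩ := h
  have hiso : ∀ z : Z, z ≠ z0 → IsClopen ({z} : Set Z) := by
    intro z hz
    refine ⟨isClosed_singleton, ?_⟩
    have h1 : ¬ AccPt z (𝓟 univ) := fun h => hz (huniq z h)
    rw [isOpen_singleton_iff_punctured_nhds]
    unfold AccPt at h1
    rw [principal_univ, inf_top_eq] at h1
    exact not_neBot.mp h1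
  constructor
  intro t _ ht x hx y hy
  by_contra hne
  rcases eq_or_ne x z0 with hx0 | hx0
  · have hy0 : y ≠ z0 := fun h => hne (hx0.trans h.symm)
    have := ht.subset_isClopen (hiso y hy0) ⟨y, hy, rfl⟩ hx
    exact hne this
  · have := ht.subset_isClopen (hiso x hx0) ⟨x, hx, rfl⟩ hy
    exact hne (Eq.symm this)

lemma infinite_of_one [T1Space Z] (h : ∃! z : Z, AccPt z (𝓟 univ)) : Infinite Z := by
  obtain ⟨z0, h0, -⟩ := h
  exact infinite_univ_iff.mp (Set.Infinite.of_accPt h0)

theorem hyperRetract_cone [CompactSpace Z] [MetrizableSpace Z] [TotallyDisconnectedSpace Z]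
    [Nonempty Z] : HyperRetract (Cone Z) := by
  have h1 : ConnectedSpace (Cone Z) := cone_connected
  have h2 := hyperRetract_subcontinuum (Z := Z) univ isClosed_univ
    (connectedSpace_iff_univ.mp h1)
  exact h2.of_homeomorph (Homeomorph.Set.univ (Cone Z)).symm

lemma cone_metrizable [CompactSpace Z] [MetrizableSpace Z] [TotallyDisconnectedSpace Z] :
    MetrizableSpace (Cone Z) := by
  obtain ⟨K, ι, h1, h2, h3, h4, h5⟩ := cone_embedding (Z := Z)
  exact h4.metrizableSpace

/-- `C(M)` is a retract of `2^M` for a metric space `M`, in terms of the Hausdorff distance: there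
is a map `r` from the nonempty compact subsets of `M` to themselves with connected values, which
fixes the connected sets and is continuous for the Hausdorff distance (in the form with epsilon and
delta). -/
def HausdorffRetract (M : Type u) [MetricSpace M] : Prop :=
  ∃ r : NonemptyCompacts M → NonemptyCompacts M,
    (∀ A : NonemptyCompacts M, IsConnected (r A : Set M)) ∧
    (∀ A : NonemptyCompacts M, IsConnected (A : Set M) → r A = A) ∧
    ∀ A : NonemptyCompacts M, ∀ ε > 0, ∃ δ > 0, ∀ B : NonemptyCompacts M,
      Metric.hausdorffDist (A : Set M) (B : Set M) < δ →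
      Metric.hausdorffDist (r A : Set M) (r B : Set M) < ε

lemma HyperRetract.hausdorff {M : Type u} [MetricSpace M] (h : HyperRetract M) :
    HausdorffRetract M := by
  obtain ⟨r, hr, hr2⟩ := h
  refine ⟨fun A => (r A).1, fun A => (r A).2, ?_, ?_⟩
  · intro A hA
    exact congrArg Subtype.val (hr2 ⟨A, hA⟩)
  · intro A ε hε
    have h1 : Continuous (fun A => (r A).1) := continuous_subtype_val.comp hr
    obtain ⟨δ, hδ, h2⟩ := Metric.continuous_iff.mp h1 A ε hε
    refine ⟨δ, hδ, fun B hB => ?_⟩
    have h3 := h2 B (by rw [dist_comm, Metric.NonemptyCompacts.dist_eq]; exact hB)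
    rw [dist_comm, Metric.NonemptyCompacts.dist_eq] at h3
    exact h3

/-- everything about cones over a space with one limit point -/
theorem main_one {Z : Type u} [MetricSpace Z] [CompactSpace Z]
    (h : ∃! z : Z, AccPt z (𝓟 univ)) (X : Type v) [MetricSpace X] (e : X ≃ₜ Cone Z) :
    CompactSpace X ∧ ConnectedSpace X ∧ ¬ LocallyConnectedSpace X ∧ HausdorffRetract X := by
  have h1 : TotallyDisconnectedSpace Z := totallyDisconnected_of_one h
  have h2 : Infinite Z := infinite_of_one h
  have h3 : Nonempty Z := inferInstance
  have h4 : ConnectedSpace (Cone Z) := cone_connected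
  refine ⟨e.symm.compactSpace, e.symm.surjective.connectedSpace e.symm.continuous, ?_, ?_⟩
  · intro h5
    exact cone_not_locallyConnected (Z := Z) e.symm.locallyConnectedSpace
  · exact (hyperRetract_cone.of_homeomorph e).hausdorff

/-- the convergent sequence has exactly one limit point -/
lemma one_limit_onePoint : ∃! z : OnePoint ℕ, AccPt z (𝓟 univ) := by
  refine ⟨OnePoint.infty, ?_, ?_⟩
  · show (𝓝[≠] (OnePoint.infty : OnePoint ℕ) ⊓ 𝓟 univ).NeBot
    rw [principal_univ, inf_top_eq]
    infer_instance
  · intro z hz
    induction z using OnePoint.rec with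
    | infty => rfl
    | coe n =>
      exfalso
      have h1 : IsOpen ({(n : OnePoint ℕ)} : Set (OnePoint ℕ)) := by
        have := OnePoint.isOpenEmbedding_coe.isOpenMap {n} (isOpen_discrete _)
        rwa [image_singleton] at this
      rw [isOpen_singleton_iff_punctured_nhds] at h1
      unfold AccPt at hz
      rw [principal_univ, inf_top_eq, h1] at hz
      exact hz.ne rfl

end Pool.Agent.Helper86.ConeRetract
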