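import Pool.Agent.Helper86.ConeRetract.Star

set_option autoImplicit false

open Set Topology Filter TopologicalSpace

namespace Pool.Agent.Helper86.ConeRetract

variable {K : Set ℝ} {X : Set E}

lemma dist_E (x y : E) : dist x y = max |x.1 - y.1| |x.2 - y.2| := by
  rw [Prod.dist_eq, Real.dist_eq, Real.dist_eq]

/-- key estimate: the retraction is close to the hull near the vertex -/
lemma Good.dist_ρ_hull (G : Good K X) {A : NonemptyCompacts E} (hAX : (A : Set E) ⊆ X) :
    dist (ρ K X A) (hull A) ≤ 4 * low A := by
  have hA : (A : Set E) ⊆ M K := hAX.trans G.sub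
  have hK := G.unit
  by_cases h : Pos A
  · rw [ρ_of_pos h, Metric.NonemptyCompacts.dist_eq]
    have ha := h.low_pos
    have hN : dsel K X A ∈ K := (G.dsel_spec hAX h).1
    have hN0 : 0 ≤ dsel K X A := (hK hN).1
    have hN1 : dsel K X A ≤ 1 := (hK hN).2
    have hc0 : 0 ≤ max (low A - spr K X A) 0 := le_max_right _ _
    have hca : max (low A - spr K X A) 0 ≤ low A := by
      apply max_le _ ha.le
      have h3 := h.spr_nonneg (K := K) (X := X)
      linarith
    have hθ0 := cl_nonneg (spr K X A / low A - 1)
    have hθ1 := cl_le_one (spr K X A / low A - 1)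
    have hβ0 := cl_nonneg (3 - spr K X A / low A)
    have hβ1 := cl_le_one (3 - spr K X A / low A)
    -- distance of a point to the leg of the largest direction
    have hleg : ∀ x ∈ A, |x.1 - x.2 * dsel K X A| ≤ spr K X A := by
      intro x hx
      have h3 := h x hx
      have h4 := M.le_one (hA hx)
      rw [fst_eq h3, ← mul_sub, abs_mul, abs_of_pos h3]
      have h5 : |dir x - dsel K X A| ≤ spr K X A := h.abs_le_spr hx
      calc x.2 * |dir x - dsel K X A| ≤ 1 * |dir x - dsel K X A| :=
            mul_le_mul_of_nonneg_right h4 (abs_nonneg _)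
        _ ≤ spr K X A := by rw [one_mul]; exact h5
    by_cases h3 : 3 * low A ≤ spr K X A
    · -- the operation is the hull
      have e1 : cl (spr K X A / low A - 1) = 1 := by
        apply cl_of_one_le
        have : 3 ≤ spr K X A / low A := (le_div_iff₀ ha).mpr h3
        linarith
      have e2 : cl (3 - spr K X A / low A) = 0 := by
        apply cl_of_nonpos
        have : 3 ≤ spr K X A / low A := (le_div_iff₀ ha).mpr h3
        linarith
      have e3 : max (low A - spr K X A) 0 = 0 := max_eq_right (by linarith)
      have e4 : (Φ (par K X A) A : Set E) = hull A := by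
        ext y
        rw [SetLike.mem_coe, SetLike.mem_coe, par, e1, e2, e3, mem_Φ, mem_hull]
        constructor
        · rintro (⟨x, hx, t, h0, h1, rfl⟩ | ⟨x, hx, t, h0, h1, rfl⟩)
          · exact ⟨x, hx, t, h0, h1, by simp⟩
          · exact ⟨x, hx, 0, le_rfl, zero_le_one, by simp⟩
        · rintro ⟨x, hx, t, h0, h1, rfl⟩
          exact Or.inl ⟨x, hx, t, h0, h1, by simp⟩
      rw [e4, Metric.hausdorffDist_self_zero]
      linarith
    · push Not at h3
      apply Metric.hausdorffDist_le_of_mem_dist (by linarith)
      · intro y hy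
        rw [SetLike.mem_coe, par, mem_Φ] at hy
        set c := max (low A - spr K X A) 0
        set θ := cl (spr K X A / low A - 1)
        set β := cl (3 - spr K X A / low A)
        rcases hy with ⟨x, hx, t, h0, h1, rfl⟩ | ⟨x, hx, t, h0, h1, rfl⟩
        · refine ⟨((t * θ) * x.1, (t * θ) * x.2), ?_, ?_⟩
          · rw [SetLike.mem_coe, mem_hull]
            exact ⟨x, hx, t * θ, mul_nonneg h0 hθ0, mul_le_one₀ h1 hθ0 hθ1, rfl⟩
          · rw [dist_E]
            simp only [add_sub_cancel_right]
            apply max_le
            · rw [abs_mul, abs_of_nonneg hc0, abs_of_nonneg hN0]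
              have : c * dsel K X A ≤ c * 1 := mul_le_mul_of_nonneg_left hN1 hc0
              linarith
            · rw [abs_of_nonneg hc0]
              linarith
        · refine ⟨((t * β) * x.1, (t * β) * x.2), ?_, ?_⟩
          · rw [SetLike.mem_coe, mem_hull]
            exact ⟨x, hx, t * β, mul_nonneg h0 hβ0, mul_le_one₀ h1 hβ0 hβ1, rfl⟩
          · have hl := hleg x hx
            have e1 : (1 - t) * c ≤ c := by nlinarith
            have e2 : 0 ≤ (1 - t) * c := mul_nonneg (by linarith) hc0
            have e3 : 0 ≤ t * β := mul_nonneg h0 hβ0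
            have e4 : t * β ≤ 1 := mul_le_one₀ h1 hβ0 hβ1
            rw [dist_E]
            simp only
            apply max_le
            · have e5 : (c + t * (β * x.2 - c)) * dsel K X A - t * β * x.1 =
                  (1 - t) * c * dsel K X A - t * β * (x.1 - x.2 * dsel K X A) := by ring
              rw [e5]
              have e6 : |(1 - t) * c * dsel K X A| ≤ c := by
                rw [abs_mul, abs_of_nonneg e2, abs_of_nonneg hN0]
                have : (1 - t) * c * dsel K X A ≤ (1 - t) * c * 1 := mul_le_mul_of_nonneg_left hN1 e2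
                linarith
              have e7 : |t * β * (x.1 - x.2 * dsel K X A)| ≤ spr K X A := by
                rw [abs_mul, abs_of_nonneg e3]
                have : t * β * |x.1 - x.2 * dsel K X A| ≤ 1 * |x.1 - x.2 * dsel K X A| :=
                  mul_le_mul_of_nonneg_right e4 (abs_nonneg _)
                linarith
              have e8 := abs_sub ((1 - t) * c * dsel K X A) (t * β * (x.1 - x.2 * dsel K X A))
              linarith
            · have e5 : c + t * (β * x.2 - c) - t * β * x.2 = (1 - t) * c := by ring
              rw [e5, abs_of_nonneg e2]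
              linarith
      · intro y hy
        rw [SetLike.mem_coe, mem_hull] at hy
        obtain ⟨x, hx, t, h0, h1, rfl⟩ := hy
        have hl := hleg x hx
        rcases le_total (spr K X A) (2 * low A) with h2 | h2
        · have e1 : cl (3 - spr K X A / low A) = 1 := by
            apply cl_of_one_le
            have : spr K X A / low A ≤ 2 := (div_le_iff₀ ha).mpr h2
            linarith
          set c := max (low A - spr K X A) 0 with hc
          refine ⟨((c + t * (x.2 - c)) * dsel K X A, c + t * (x.2 - c)), ?_, ?_⟩
          · rw [SetLike.mem_coe, par, mem_Φ, e1]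
            exact Or.inr ⟨x, hx, t, h0, h1, by rw [one_mul]⟩
          · have e2 : 0 ≤ (1 - t) * c := mul_nonneg (by linarith) hc0
            have e1 : (1 - t) * c ≤ c := by nlinarith
            rw [dist_E]
            simp only
            apply max_le
            · have e5 : t * x.1 - (c + t * (x.2 - c)) * dsel K X A =
                  t * (x.1 - x.2 * dsel K X A) - (1 - t) * c * dsel K X A := by ring
              rw [e5]
              have e6 : |(1 - t) * c * dsel K X A| ≤ c := by
                rw [abs_mul, abs_of_nonneg e2, abs_of_nonneg hN0]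
                have : (1 - t) * c * dsel K X A ≤ (1 - t) * c * 1 := mul_le_mul_of_nonneg_left hN1 e2
                linarith
              have e7 : |t * (x.1 - x.2 * dsel K X A)| ≤ spr K X A := by
                rw [abs_mul, abs_of_nonneg h0]
                have : t * |x.1 - x.2 * dsel K X A| ≤ 1 * |x.1 - x.2 * dsel K X A| :=
                  mul_le_mul_of_nonneg_right h1 (abs_nonneg _)
                linarith
              have e8 := abs_sub (t * (x.1 - x.2 * dsel K X A)) ((1 - t) * c * dsel K X A)
              linarith
            · have e5 : t * x.2 - (c + t * (x.2 - c)) = -((1 - t) * c) := by ring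
              rw [e5, abs_neg, abs_of_nonneg e2]
              linarith
        · have e1 : cl (spr K X A / low A - 1) = 1 := by
            apply cl_of_one_le
            have : 2 ≤ spr K X A / low A := (le_div_iff₀ ha).mpr h2
            linarith
          have e3 : max (low A - spr K X A) 0 = 0 := max_eq_right (by linarith)
          refine ⟨(t * x.1, t * x.2), ?_, ?_⟩
          · rw [SetLike.mem_coe, par, mem_Φ, e1, e3]
            exact Or.inl ⟨x, hx, t, h0, h1, by simp⟩
          · rw [dist_self]
            linarith
  · rw [ρ_of_not_pos h, dist_self]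
    obtain ⟨x, hx, hl⟩ := exists_low A
    rw [hl]
    have := M.nonneg (hA hx)
    linarith

lemma Good.continuousOn_ρ (G : Good K X) :
    ContinuousOn (ρ K X) {B | (B : Set E) ⊆ X} := by
  intro A hA
  have hAM : (A : Set E) ⊆ M K := Subset.trans hA G.sub
  by_cases h : Pos A
  · exact G.continuousWithinAt_ρ_pos hA h
  · have hlow : low A = 0 := by
      apply le_antisymm
      · unfold Pos at h
        push Not at h
        obtain ⟨x, hx, hx2⟩ := h
        exact (low_le hx).trans hx2
      · obtain ⟨x, hx, hl⟩ := exists_low A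
        rw [hl]
        exact M.nonneg (hAM hx)
    unfold ContinuousWithinAt
    rw [ρ_of_not_pos h]
    have h1 : Continuous hull := by
      unfold hull
      exact continuous_Φ.comp (continuous_const.prodMk continuous_id)
    have h2 : Tendsto hull (𝓝[{B | (B : Set E) ⊆ X}] A) (𝓝 (hull A)) :=
      h1.continuousAt.tendsto.mono_left nhdsWithin_le_nhds
    have h3 : Tendsto (fun B => dist (ρ K X B) (hull B)) (𝓝[{B | (B : Set E) ⊆ X}] A)
        (𝓝 0) := by
      have h4 : Tendsto (fun B => 4 * low B) (𝓝[{B | (B : Set E) ⊆ X}] A) (𝓝 0) := by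
        have h5 : Tendsto (fun B => 4 * low B) (𝓝 A) (𝓝 (4 * low A)) :=
          (continuous_const.mul continuous_low).continuousAt
        rw [hlow, mul_zero] at h5
        exact h5.mono_left nhdsWithin_le_nhds
      refine squeeze_zero' (Eventually.of_forall fun _ => dist_nonneg) ?_ h4
      filter_upwards [self_mem_nhdsWithin] with B hB
      exact G.dist_ρ_hull hB
    exact (tendsto_iff_of_dist h3).mpr h2

/-- sets with one direction -/
lemma Pos.par_of_eq {A : NonemptyCompacts E} (h : Pos A) (heq : mn A = mx A) :
    par K X A = (low A, 0, 1, mn A) := by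
  have e : dsel K X A = mn A := by
    unfold dsel nsel
    rw [if_neg (by simp [heq])]
  have hspr : spr K X A = 0 := by
    unfold spr
    rw [e, heq]
    simp
  have ha := h.low_pos
  unfold par
  rw [hspr, e, sub_zero, zero_div, cl_of_nonpos (by norm_num), cl_of_one_le (by norm_num),
    max_eq_left ha.le]

lemma Good.ρ_subset (G : Good K X) {A : NonemptyCompacts E} (hA : (A : Set E) ⊆ X) :
    (ρ K X A : Set E) ⊆ X := by
  have hAM := hA.trans G.sub
  by_cases h : Pos A
  · rw [ρ_of_pos h]
    have ha := h.low_pos
    by_cases h0 : (0 : E) ∈ X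
    · intro y hy
      rw [SetLike.mem_coe, par, mem_Φ] at hy
      have hc0 : 0 ≤ max (low A - spr K X A) 0 := le_max_right _ _
      have hca : max (low A - spr K X A) 0 ≤ low A := by
        apply max_le _ ha.le
        have h3 := h.spr_nonneg (K := K) (X := X)
        linarith
      have hθ0 := cl_nonneg (spr K X A / low A - 1)
      have hθ1 := cl_le_one (spr K X A / low A - 1)
      have hβ0 := cl_nonneg (3 - spr K X A / low A)
      have hβ1 := cl_le_one (3 - spr K X A / low A)
      have hcase : max (low A - spr K X A) 0 = 0 ∨ cl (spr K X A / low A - 1) = 0 := by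
        rcases le_total (low A) (spr K X A) with h1 | h1
        · left
          exact max_eq_right (by linarith)
        · right
          apply cl_of_nonpos
          rw [sub_nonpos, div_le_one h.low_pos]
          exact h1
      have hleg : ∀ x ∈ A, ∀ u, 0 ≤ u → u ≤ x.2 → ((u * dsel K X A, u) : E) ∈ X := by
        intro x hx u hu0 hu1
        obtain ⟨y, hy1, hy2, hy3, hy4⟩ := (G.dsel_spec hA h).2.2 x hx
        rw [← hy3]
        exact G.below h0 hy1 hy2 hu0 (hu1.trans hy4)
      set c := max (low A - spr K X A) 0
      set θ := cl (spr K X A / low A - 1)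
      set β := cl (3 - spr K X A / low A)
      rcases hy with ⟨x, hx, t, ht0, ht1, rfl⟩ | ⟨x, hx, t, ht0, ht1, rfl⟩
      · rcases hcase with hc | hθ
        · have h2 := G.star h0 (hA hx) (mul_nonneg ht0 hθ0) (mul_le_one₀ ht1 hθ0 hθ1)
          rw [hc]
          simpa using h2
        · have h2 := hleg x hx c hc0 (hca.trans (low_le hx))
          rw [hθ]
          simpa using h2
      · apply hleg x hx
        · have h2 := M.nonneg (hAM hx)
          have h3 : 0 ≤ t * (β * x.2) := mul_nonneg ht0 (mul_nonneg hβ0 h2)
          have h4 : 0 ≤ (1 - t) * c := mul_nonneg (by linarith) hc0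
          linarith
        · have h2 := M.nonneg (hAM hx)
          have h4 : β * x.2 ≤ 1 * x.2 := mul_le_mul_of_nonneg_right hβ1 h2
          have h5 : t * (β * x.2) ≤ t * (1 * x.2) := mul_le_mul_of_nonneg_left h4 ht0
          have h6 : (1 - t) * c ≤ (1 - t) * x.2 :=
            mul_le_mul_of_nonneg_left (hca.trans (low_le hx)) (by linarith)
          linarith
    · obtain ⟨hpos, hsub⟩ := G.same_dir h0
      have heq : mn A = mx A := by
        obtain ⟨x, hx, h1⟩ := h.exists_mn
        obtain ⟨y, hy, h2⟩ := h.exists_mx
        rw [h1, h2]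
        exact hsub ⟨x, hA hx, rfl⟩ ⟨y, hA hy, rfl⟩
      have hht : (Prod.snd '' X).OrdConnected :=
        (G.conn.image _ continuous_snd.continuousOn).ordConnected
      have hlow : low A ∈ Prod.snd '' X := by
        obtain ⟨x, hx, hl⟩ := exists_low A
        exact ⟨x, hA hx, hl.symm⟩
      have hdir : ∀ y ∈ X, dir y = mn A := by
        intro y hy
        obtain ⟨x, hx, h1⟩ := h.exists_mn
        rw [h1]
        exact hsub ⟨y, hy, rfl⟩ ⟨x, hA hx, rfl⟩
      have hmem : ∀ u, low A ≤ u → ∀ x ∈ A, u ≤ x.2 → ((u * mn A, u) : E) ∈ X := by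
        intro u hu1 x hx hu2
        obtain ⟨y, hy, hyu⟩ := hht.out hlow ⟨x, hA hx, rfl⟩ ⟨hu1, hu2⟩
        have h3 : y = (u * mn A, u) := by
          refine Prod.ext ?_ hyu
          show y.1 = u * mn A
          rw [fst_eq (hpos y hy), hyu, hdir y hy]
        rw [← h3]
        exact hy
      intro y hy
      rw [SetLike.mem_coe, h.par_of_eq heq, mem_Φ] at hy
      rcases hy with ⟨x, hx, t, ht0, ht1, rfl⟩ | ⟨x, hx, t, ht0, ht1, rfl⟩
      · simp only [mul_zero, zero_mul, add_zero]
        exact hmem _ le_rfl x hx (low_le hx)
      · have h2 := low_le hx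
        apply hmem _ _ x hx
        · nlinarith
        · nlinarith
  · rw [ρ_of_not_pos h]
    have h0 : (0 : E) ∈ X := hA (not_pos_iff hAM h)
    intro y hy
    rw [SetLike.mem_coe, mem_hull] at hy
    obtain ⟨x, hx, t, ht0, ht1, rfl⟩ := hy
    exact G.star h0 (hA hx) ht0 ht1

/-- the retraction fixes connected sets -/
lemma Good.ρ_of_connected (G : Good K X) {A : NonemptyCompacts E}
    (hAX : (A : Set E) ⊆ X) (hc : IsPreconnected (A : Set E)) : ρ K X A = A := by
  have hA : (A : Set E) ⊆ M K := hAX.trans G.sub
  by_cases h : Pos A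
  · rw [ρ_of_pos h]
    -- only one direction
    have h1 : (dir '' (A : Set E)).Subsingleton :=
      G.td _ (by
        rintro _ ⟨x, hx, rfl⟩
        exact M.dir_mem (hA hx) (h x hx)) (hc.image _ h.continuousOn)
    have heq : mn A = mx A := by
      obtain ⟨x, hx, h2⟩ := h.exists_mn
      obtain ⟨y, hy, h3⟩ := h.exists_mx
      rw [h2, h3]
      exact h1 ⟨x, hx, rfl⟩ ⟨y, hy, rfl⟩
    have hpt : ∀ x ∈ A, x = (x.2 * mn A, x.2) := by
      intro x hx
      refine Prod.ext ?_ rfl
      show x.1 = x.2 * mn A
      obtain ⟨y, hy, h2⟩ := h.exists_mn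
      rw [h2, fst_eq (h x hx), h1 ⟨x, hx, rfl⟩ ⟨y, hy, rfl⟩]
    have hht : (Prod.snd '' (A : Set E)).OrdConnected :=
      (hc.image _ continuous_snd.continuousOn).ordConnected
    have hlow : low A ∈ Prod.snd '' (A : Set E) := by
      obtain ⟨x, hx, hl⟩ := exists_low A
      exact ⟨x, hx, hl.symm⟩
    have hmem : ∀ u, low A ≤ u → ∀ x ∈ A, u ≤ x.2 → ((u * mn A, u) : E) ∈ A := by
      intro u hu1 x hx hu2
      obtain ⟨y, hy, hyu⟩ := hht.out hlow ⟨x, hx, rfl⟩ ⟨hu1, hu2⟩
      have := hpt y hy
      rw [hyu] at this
      rw [← this]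
      exact hy
    apply SetLike.coe_injective
    ext y
    rw [SetLike.mem_coe, SetLike.mem_coe, h.par_of_eq heq, mem_Φ]
    constructor
    · rintro (⟨x, hx, t, ht0, ht1, rfl⟩ | ⟨x, hx, t, ht0, ht1, rfl⟩)
      · simp only [mul_zero, zero_mul, add_zero]
        exact hmem _ le_rfl x hx (low_le hx)
      · have h2 := low_le hx
        apply hmem _ _ x hx
        · nlinarith
        · nlinarith
    · intro hy
      refine Or.inr ⟨y, hy, 1, zero_le_one, le_rfl, ?_⟩
      have := hpt y hy
      rw [one_mul, one_mul]
      have e : low A + (y.2 - low A) = y.2 := by ring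
      rw [e]
      exact this
  · rw [ρ_of_not_pos h]
    have h0 := not_pos_iff hA h
    apply SetLike.coe_injective
    ext y
    rw [SetLike.mem_coe, SetLike.mem_coe, mem_hull]
    constructor
    · rintro ⟨x, hx, t, ht0, ht1, rfl⟩
      exact star_of_connected G.td hA hc h0 hx ht0 ht1
    · intro hy
      exact ⟨y, hy, 1, zero_le_one, le_rfl, by simp⟩

end Pool.Agent.Helper86.ConeRetract
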