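import Mathlib

set_option autoImplicit false

open Set Topology Filter TopologicalSpace

namespace Pool.Agent.Helper86.ConeRetract

variable {K : Set ℝ}

/-- a totally disconnected set of reals has gaps everywhere -/
lemma exists_gap (hK : IsTotallyDisconnected K) {a b : ℝ} (hab : a < b) :
    ∃ p, a < p ∧ p < b ∧ p ∉ K := by
  by_contra hcon
  push Not at hcon
  have h1 : Ioo a b ⊆ K := fun p hp => hcon p hp.1 hp.2
  have h2 := hK (Ioo a b) h1 isPreconnected_Ioo
  have h3 : a + (b - a) / 3 = a + (b - a) / 2 := by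
    apply h2
    · constructor <;> linarith
    · constructor <;> linarith
  linarith

/-- a dense sequence of reals, used as cut points when outside `K` -/
noncomputable def q (n : ℕ) : ℝ := denseSeq ℝ n

lemma exists_cut (hK : IsTotallyDisconnected K) (hKc : IsClosed K) {a b : ℝ} (hab : a < b) :
    ∃ n, a < q n ∧ q n < b ∧ q n ∉ K := by
  obtain ⟨p, h1, h2, h3⟩ := exists_gap hK hab
  have ho : IsOpen (Ioo a b ∩ Kᶜ) := isOpen_Ioo.inter hKc.isOpen_compl
  obtain ⟨x, hx, n, rfl⟩ := (denseRange_denseSeq ℝ).inter_open_nonempty _ ho ⟨p, ⟨h1, h2⟩, h3⟩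
  exact ⟨n, hx.1.1, hx.1.2, hx.2⟩

/-- the `i`-th cut point separates `m₀ < m₁` -/
def Splits (K : Set ℝ) (m : ℝ × ℝ) (i : ℕ) : Prop := q i ∉ K ∧ m.1 < q i ∧ q i < m.2

open Classical in
/-- the first cut point which separates -/
noncomputable def level (K : Set ℝ) (m : ℝ × ℝ) : ℕ :=
  if h : ∃ i, Splits K m i then Nat.find h else 0

/-- the piece of `K` around `a` given by the first `n` cut points -/
def piece (K : Set ℝ) (n : ℕ) (a : ℝ) : Set ℝ :=
  {w | w ∈ K ∧ ∀ i < n, q i ∉ K → (w < q i ↔ a < q i)}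

lemma level_not_splits {m : ℝ × ℝ} {i : ℕ} (h : i < level K m) : ¬ Splits K m i := by
  classical
  unfold level at h
  split_ifs at h with h1
  · exact Nat.find_min h1 h
  · exact absurd h (Nat.not_lt_zero i)

lemma level_splits {m : ℝ × ℝ} (h : ∃ i, Splits K m i) : Splits K m (level K m) := by
  classical
  unfold level
  rw [dif_pos h]
  exact Nat.find_spec h

lemma level_eq {m m' : ℝ × ℝ} (h : ∃ i, Splits K m i)
    (h' : ∀ i ≤ level K m, (Splits K m' i ↔ Splits K m i)) : level K m' = level K m := by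
  classical
  have h1 : Splits K m' (level K m) := (h' _ le_rfl).mpr (level_splits h)
  have h2 : level K m' ≤ level K m := by
    unfold level at h1 ⊢
    rw [dif_pos ⟨_, h1⟩]
    exact Nat.find_min' _ h1
  apply le_antisymm h2
  by_contra hlt
  push Not at hlt
  exact level_not_splits hlt ((h' _ h2).mp (level_splits ⟨_, h1⟩))

lemma lt_level {m : ℝ × ℝ} (h : ∃ i, Splits K m i) {n : ℕ} (hn : ∀ i ≤ n, ¬ Splits K m i) :
    n < level K m := by
  by_contra hcon
  push Not at hcon
  exact hn _ hcon (level_splits h)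

/-- directions between the two extremes lie in the piece -/
lemma mem_piece {m : ℝ × ℝ} (h0 : m.1 ∈ K) (h1 : m.2 ∈ K) {w : ℝ} (hw : w ∈ K)
    (hw0 : m.1 ≤ w) (hw1 : w ≤ m.2) : w ∈ piece K (level K m) m.1 := by
  refine ⟨hw, fun i hi hq => ?_⟩
  have h2 := level_not_splits hi
  constructor
  · intro h3
    exact lt_of_le_of_lt hw0 h3
  · intro h3
    by_contra h4
    push Not at h4
    apply h2
    refine ⟨hq, h3, lt_of_le_of_ne ?_ (fun h => hq (h ▸ h1))⟩
    exact h4.trans hw1

variable (X : Set (ℝ × ℝ))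

/-- `z` is the direction of a highest point of `X` over the piece `P` -/
def IsBest (P : Set ℝ) (z : ℝ) : Prop :=
  z ∈ P ∧ ∃ x ∈ X, 0 < x.2 ∧ x.1 / x.2 = z ∧ ∀ y ∈ X, 0 < y.2 → y.1 / y.2 ∈ P → y.2 ≤ x.2

open Classical in
/-- the best direction over a piece -/
noncomputable def best (P : Set ℝ) : ℝ :=
  if h : ∃ z, IsBest X P z then h.choose else 0

open Classical in
/-- the selected direction -/
noncomputable def nsel (K : Set ℝ) (m : ℝ × ℝ) : ℝ :=
  if m.1 < m.2 then best X (piece K (level K m) m.1) else m.1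

variable {X}

lemma best_isBest {P : Set ℝ} (h : ∃ z, IsBest X P z) : IsBest X P (best X P) := by
  classical
  unfold best
  rw [dif_pos h]
  exact h.choose_spec

/-- existence of the best direction -/
lemma exists_isBest (hX : IsCompact X) (hXK : ∀ x ∈ X, 0 < x.2 → x.1 / x.2 ∈ K) {n : ℕ} {a : ℝ}
    (hne : ∃ x ∈ X, 0 < x.2 ∧ x.1 / x.2 ∈ piece K n a) : ∃ z, IsBest X (piece K n a) z := by
  obtain ⟨x0, hx0, hpos0, hdir0⟩ := hne
  -- membership in the piece as a closed condition
  have key : ∀ x ∈ X, 0 < x.2 → (x.1 / x.2 ∈ piece K n a ↔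
      ∀ i < n, q i ∉ K → ((a < q i → x.1 ≤ q i * x.2) ∧ (¬ a < q i → q i * x.2 ≤ x.1))) := by
    intro x hx hpos
    have hxK := hXK x hx hpos
    constructor
    · rintro ⟨-, h⟩ i hi hq
      constructor
      · intro h1
        have h2 := (h i hi hq).mpr h1
        rw [div_lt_iff₀ hpos] at h2
        exact h2.le
      · intro h1
        have h2 : ¬ x.1 / x.2 < q i := fun h3 => h1 ((h i hi hq).mp h3)
        rw [div_lt_iff₀ hpos] at h2
        exact not_lt.mp h2
    · intro h
      refine ⟨hxK, fun i hi hq => ?_⟩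
      obtain ⟨h1, h2⟩ := h i hi hq
      constructor
      · intro h3
        by_contra h4
        have h5 := h2 h4
        rw [div_lt_iff₀ hpos] at h3
        exact absurd h3 (not_lt.mpr h5)
      · intro h3
        have h4 := h1 h3
        refine lt_of_le_of_ne ?_ (fun h5 => hq (h5 ▸ hxK))
        rw [div_le_iff₀ hpos]
        exact h4
  set S : Set (ℝ × ℝ) := {x | ∀ i < n, q i ∉ K → ((a < q i → x.1 ≤ q i * x.2) ∧
    (¬ a < q i → q i * x.2 ≤ x.1))} with hS
  have hSc : IsClosed S := by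
    have e : S = ⋂ i, ⋂ (_ : i < n), ⋂ (_ : q i ∉ K),
        ((⋂ (_ : a < q i), {x : ℝ × ℝ | x.1 ≤ q i * x.2}) ∩
          (⋂ (_ : ¬ a < q i), {x : ℝ × ℝ | q i * x.2 ≤ x.1})) := by
      ext x
      simp only [hS, mem_ofPred_eq, mem_iInter, mem_inter_iff]
    rw [e]
    refine isClosed_iInter fun i => isClosed_iInter fun _ => isClosed_iInter fun _ => ?_
    refine IsClosed.inter (isClosed_iInter fun _ => ?_) (isClosed_iInter fun _ => ?_)
    · exact isClosed_le continuous_fst (by fun_prop)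
    · exact isClosed_le (by fun_prop) continuous_fst
  have hcomp : IsCompact (X ∩ S) := hX.inter_right hSc
  have hx0S : x0 ∈ X ∩ S := ⟨hx0, (key x0 hx0 hpos0).mp hdir0⟩
  obtain ⟨x, hx, hmax⟩ := hcomp.exists_isMaxOn ⟨x0, hx0S⟩ (f := Prod.snd)
    continuous_snd.continuousOn
  have hxpos : 0 < x.2 := lt_of_lt_of_le hpos0 (hmax hx0S)
  refine ⟨x.1 / x.2, (key x hx.1 hxpos).mpr hx.2, x, hx.1, hxpos, rfl, ?_⟩
  intro y hy hypos hydir
  exact hmax (show y ∈ X ∩ S from ⟨hy, (key y hy hypos).mp hydir⟩)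

/-- the selected direction is locally constant off the diagonal -/
lemma continuousAt_nsel (hK : IsTotallyDisconnected K) (hKc : IsClosed K) {m : ℝ × ℝ}
    (h0 : m.1 ∈ K) (h1 : m.2 ∈ K) (hlt : m.1 < m.2) : ContinuousAt (nsel X K) m := by
  have hex : ∃ i, Splits K m i := by
    obtain ⟨n, h2, h3, h4⟩ := exists_cut hK hKc hlt
    exact ⟨n, h4, h2, h3⟩
  have hev1 : ∀ᶠ m' : ℝ × ℝ in 𝓝 m, ∀ i ∈ Finset.range (level K m + 1), q i ∉ K →
      ((m'.1 < q i ↔ m.1 < q i) ∧ (q i < m'.2 ↔ q i < m.2)) := by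
    rw [Filter.eventually_all_finset]
    intro i _
    by_cases hq : q i ∈ K
    · exact Eventually.of_forall fun _ h => absurd hq h
    · have e1 : ∀ᶠ m' : ℝ × ℝ in 𝓝 m, (m'.1 < q i ↔ m.1 < q i) := by
        rcases lt_trichotomy m.1 (q i) with h | h | h
        · filter_upwards [continuousAt_fst.eventually (gt_mem_nhds h)] with m' hm'
          exact ⟨fun _ => h, fun _ => hm'⟩
        · exact absurd (h ▸ h0) hq
        · filter_upwards [continuousAt_fst.eventually (lt_mem_nhds h)] with m' hm'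
          exact ⟨fun h' => absurd h' (not_lt.mpr hm'.le), fun h' => absurd h' (not_lt.mpr h.le)⟩
      have e2 : ∀ᶠ m' : ℝ × ℝ in 𝓝 m, (q i < m'.2 ↔ q i < m.2) := by
        rcases lt_trichotomy m.2 (q i) with h | h | h
        · filter_upwards [continuousAt_snd.eventually (gt_mem_nhds h)] with m' hm'
          exact ⟨fun h' => absurd h' (not_lt.mpr hm'.le), fun h' => absurd h' (not_lt.mpr h.le)⟩
        · exact absurd (h ▸ h1) hq
        · filter_upwards [continuousAt_snd.eventually (lt_mem_nhds h)] with m' hm'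
          exact ⟨fun _ => h, fun _ => hm'⟩
      filter_upwards [e1, e2] with m' h2 h3 _
      exact ⟨h2, h3⟩
  have hev2 : ∀ᶠ m' : ℝ × ℝ in 𝓝 m, m'.1 < m'.2 :=
    (isOpen_lt continuous_fst continuous_snd).mem_nhds hlt
  have hev : nsel X K =ᶠ[𝓝 m] fun _ => nsel X K m := by
    filter_upwards [hev1, hev2] with m' h2 h3
    have hs : ∀ i ≤ level K m, (Splits K m' i ↔ Splits K m i) := by
      intro i hi
      unfold Splits
      constructor
      · rintro ⟨a1, a2, a3⟩
        obtain ⟨b1, b2⟩ := h2 i (Finset.mem_range.mpr (by omega)) a1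
        exact ⟨a1, b1.mp a2, b2.mp a3⟩
      · rintro ⟨a1, a2, a3⟩
        obtain ⟨b1, b2⟩ := h2 i (Finset.mem_range.mpr (by omega)) a1
        exact ⟨a1, b1.mpr a2, b2.mpr a3⟩
    have hl := level_eq hex hs
    unfold nsel
    rw [if_pos h3, if_pos hlt, hl]
    congr 1
    ext w
    unfold piece
    simp only [mem_ofPred_eq]
    refine and_congr_right fun _ => forall_congr' fun i => forall_congr' fun hi =>
      forall_congr' fun hq => ?_
    rw [(h2 i (Finset.mem_range.mpr (by omega)) hq).1]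
  exact (continuousAt_const.congr hev.symm)

/-- near the diagonal the piece is small -/
lemma piece_small (hK : IsTotallyDisconnected K) (hKc : IsClosed K) {z : ℝ} (hz : z ∈ K) {ε : ℝ}
    (hε : 0 < ε) : ∀ᶠ m : ℝ × ℝ in 𝓝 (z, z), m.1 < m.2 →
      ∀ w ∈ piece K (level K m) m.1, |w - z| ≤ ε := by
  obtain ⟨i, hi1, hi2, hi3⟩ := exists_cut hK hKc (show z - ε < z by linarith)
  obtain ⟨j, hj1, hj2, hj3⟩ := exists_cut hK hKc (show z < z + ε by linarith)
  have hev1 : ∀ᶠ m : ℝ × ℝ in 𝓝 (z, z), ∀ k ∈ Finset.range (max i j + 1), q k ∉ K →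
      ¬ Splits K m k := by
    rw [Filter.eventually_all_finset]
    intro k _
    by_cases hq : q k ∈ K
    · exact Eventually.of_forall fun _ h => absurd hq h
    · rcases lt_trichotomy z (q k) with h | h | h
      · have : ∀ᶠ m : ℝ × ℝ in 𝓝 (z, z), m.2 < q k :=
          (continuousAt_snd (p := ((z, z) : ℝ × ℝ))).eventually (gt_mem_nhds h)
        filter_upwards [this] with m hm _ hs
        exact absurd hs.2.2 (not_lt.mpr hm.le)
      · exact absurd (h ▸ hz) hq
      · have : ∀ᶠ m : ℝ × ℝ in 𝓝 (z, z), q k < m.1 :=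
          (continuousAt_fst (p := ((z, z) : ℝ × ℝ))).eventually (lt_mem_nhds h)
        filter_upwards [this] with m hm _ hs
        exact absurd hs.2.1 (not_lt.mpr hm.le)
  have hev2 : ∀ᶠ m : ℝ × ℝ in 𝓝 (z, z), q i < m.1 :=
    (continuousAt_fst (p := ((z, z) : ℝ × ℝ))).eventually (lt_mem_nhds hi2)
  have hev3 : ∀ᶠ m : ℝ × ℝ in 𝓝 (z, z), m.1 < q j :=
    (continuousAt_fst (p := ((z, z) : ℝ × ℝ))).eventually (gt_mem_nhds hj1)
  filter_upwards [hev1, hev2, hev3] with m h1 h2 h3 hlt w hw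
  have hex : ∃ k, Splits K m k := by
    obtain ⟨n, h4, h5, h6⟩ := exists_cut hK hKc hlt
    exact ⟨n, h6, h4, h5⟩
  have hlev : max i j < level K m := by
    apply lt_level hex
    intro k hk hs
    exact h1 k (Finset.mem_range.mpr (by omega)) hs.1 hs
  obtain ⟨-, hw2⟩ := hw
  have hwi := hw2 i (lt_of_le_of_lt (le_max_left _ _) hlev) hi3
  have hwj := hw2 j (lt_of_le_of_lt (le_max_right _ _) hlev) hj3
  have e1 : q i ≤ w := by
    by_contra h4
    push Not at h4
    exact absurd (hwi.mp h4) (not_lt.mpr h2.le)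
  have e2 : w < q j := hwj.mpr h3
  rw [abs_le]
  constructor <;> linarith

end Pool.Agent.Helper86.ConeRetract
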