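import Pool.Agent.Helper86.ConeRetract.Ambient
import Pool.Agent.Helper86.ConeRetract.Select

set_option autoImplicit false

open Set Topology Filter TopologicalSpace

namespace Pool.Agent.Helper86.ConeRetract

/-- the standing assumptions: `K ⊆ [0,1]` is compact and totally disconnected, `X` is a compact
connected subset of the cone `M K` -/
structure Good (K : Set ℝ) (X : Set E) : Prop where
  unit : K ⊆ Icc 0 1
  td : IsTotallyDisconnected K
  closed : IsClosed K
  compact : IsCompact X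
  sub : X ⊆ M K
  conn : IsPreconnected X

variable {K : Set ℝ} {X : Set E}

lemma M.nonneg {x : E} (hx : x ∈ M K) : 0 ≤ x.2 := by
  obtain ⟨z, hz, s, hs, rfl⟩ := hx
  exact hs.1

lemma M.le_one {x : E} (hx : x ∈ M K) : x.2 ≤ 1 := by
  obtain ⟨z, hz, s, hs, rfl⟩ := hx
  exact hs.2

lemma M.dir_mem {x : E} (hx : x ∈ M K) (h : 0 < x.2) : dir x ∈ K := by
  obtain ⟨z, hz, s, hs, rfl⟩ := hx
  have h' : s ≠ 0 := h.ne'
  have : dir (s * z, s) = z := by
    unfold dir
    simp only
    field_simp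
  rw [this]
  exact hz

lemma fst_eq {x : E} (h : 0 < x.2) : x.1 = x.2 * dir x := by
  unfold dir
  field_simp

lemma M.mk {z u : ℝ} (hz : z ∈ K) (h0 : 0 ≤ u) (h1 : u ≤ 1) : ((u * z, u) : E) ∈ M K :=
  ⟨z, hz, u, ⟨h0, h1⟩, rfl⟩

lemma M.smul {x : E} (hx : x ∈ M K) {t : ℝ} (h0 : 0 ≤ t) (h1 : t ≤ 1) :
    ((t * x.1, t * x.2) : E) ∈ M K := by
  obtain ⟨z, hz, s, hs, rfl⟩ := hx
  refine ⟨z, hz, t * s, ⟨mul_nonneg h0 hs.1, mul_le_one₀ h1 hs.1 hs.2⟩, ?_⟩
  rw [mul_assoc]

lemma Pos.mn_mem {A : NonemptyCompacts E} (h : Pos A) (hA : (A : Set E) ⊆ M K) : mn A ∈ K := by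
  obtain ⟨x, hx, h1⟩ := h.exists_mn
  rw [h1]
  exact M.dir_mem (hA hx) (h x hx)

lemma Pos.mx_mem {A : NonemptyCompacts E} (h : Pos A) (hA : (A : Set E) ⊆ M K) : mx A ∈ K := by
  obtain ⟨x, hx, h1⟩ := h.exists_mx
  rw [h1]
  exact M.dir_mem (hA hx) (h x hx)

lemma Pos.mn_le_mx {A : NonemptyCompacts E} (h : Pos A) : mn A ≤ mx A := by
  obtain ⟨x, hx⟩ := A.nonempty
  exact (h.mn_le hx).trans (h.le_mx hx)

/-- the selected direction of a set -/
noncomputable def dsel (K : Set ℝ) (X : Set E) (A : NonemptyCompacts E) : ℝ :=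
  nsel X K (mn A, mx A)

/-- the selected leg is long enough -/
lemma Good.dsel_spec (G : Good K X) {A : NonemptyCompacts E} (hA : (A : Set E) ⊆ X) (h : Pos A) :
    dsel K X A ∈ K ∧ (mn A < mx A → dsel K X A ∈ piece K (level K (mn A, mx A)) (mn A)) ∧
    ∀ x ∈ A, ∃ y ∈ X, 0 < y.2 ∧ dir y = dsel K X A ∧ x.2 ≤ y.2 := by
  have hAM := hA.trans G.sub
  have h0 := h.mn_mem hAM
  have h1 := h.mx_mem hAM
  rcases h.mn_le_mx.eq_or_lt with heq | hlt
  · have e : dsel K X A = mn A := by
      unfold dsel nsel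
      rw [if_neg (by simp [heq])]
    refine ⟨e ▸ h0, fun hlt => absurd heq hlt.ne, fun x hx => ⟨x, hA hx, h x hx, ?_, le_rfl⟩⟩
    rw [e]
    exact le_antisymm (heq ▸ h.le_mx hx) (h.mn_le hx)
  · have hmem : ∀ x ∈ A, dir x ∈ piece K (level K (mn A, mx A)) (mn A) := fun x hx =>
      mem_piece (m := (mn A, mx A)) h0 h1 (M.dir_mem (hAM hx) (h x hx)) (h.mn_le hx) (h.le_mx hx)
    obtain ⟨x0, hx0⟩ := A.nonempty
    have hex := exists_isBest (K := K) (n := level K (mn A, mx A)) (a := mn A) G.compact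
      (fun x hx hpos => M.dir_mem (G.sub hx) hpos) ⟨x0, hA hx0, h x0 hx0, hmem x0 hx0⟩
    have hb := best_isBest hex
    have e : dsel K X A = best X (piece K (level K (mn A, mx A)) (mn A)) := by
      unfold dsel nsel
      rw [if_pos hlt]
    rw [e]
    refine ⟨hb.1.1, fun _ => hb.1, fun x hx => ?_⟩
    obtain ⟨y, hy, hy1, hy2, hy3⟩ := hb.2
    exact ⟨y, hy, hy1, hy2, hy3 x (hA hx) (h x hx) (hmem x hx)⟩

lemma Good.continuousWithinAt_dsel (G : Good K X) {A : NonemptyCompacts E}
    (hA : (A : Set E) ⊆ X) (h : Pos A) :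
    ContinuousWithinAt (dsel K X) {B | (B : Set E) ⊆ X} A := by
  have hAM := hA.trans G.sub
  have h0 := h.mn_mem hAM
  have h1 := h.mx_mem hAM
  have hc : ContinuousAt (fun B => (mn B, mx B)) A := h.continuousAt_mn.prodMk h.continuousAt_mx
  rcases h.mn_le_mx.eq_or_lt with heq | hlt
  · have e : dsel K X A = mn A := by
      unfold dsel nsel
      rw [if_neg (by simp [heq])]
    unfold ContinuousWithinAt
    rw [e]
    have hc' : Tendsto (fun B => (mn B, mx B)) (𝓝[{B | (B : Set E) ⊆ X}] A)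
        (𝓝 (mn A, mn A)) := by
      have h2 : Tendsto (fun B => (mn B, mx B)) (𝓝 A) (𝓝 (mn A, mx A)) := hc
      rw [← heq] at h2
      exact h2.mono_left nhdsWithin_le_nhds
    rw [Metric.tendsto_nhds]
    intro ε hε
    have h2 := hc'.eventually (piece_small G.td G.closed h0 (half_pos hε))
    have h3 : ∀ᶠ B in 𝓝[{B : NonemptyCompacts E | (B : Set E) ⊆ X}] A,
        dist (mn B) (mn A) < ε := by
      have := (Metric.tendsto_nhds.mp (h.continuousAt_mn) ε hε)
      exact this.filter_mono nhdsWithin_le_nhds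
    have h4 : ∀ᶠ B in 𝓝[{B : NonemptyCompacts E | (B : Set E) ⊆ X}] A,
        ∀ x ∈ B, low A / 2 < x.2 := h.eventually.filter_mono nhdsWithin_le_nhds
    filter_upwards [h2, h3, h4, self_mem_nhdsWithin] with B hB2 hB3 hB4 hB5
    have hp : Pos B := fun x hx => lt_trans (half_pos h.low_pos) (hB4 x hx)
    rcases hp.mn_le_mx.eq_or_lt with heq' | hlt'
    · have e' : dsel K X B = mn B := by
        unfold dsel nsel
        rw [if_neg (by simp [heq'])]
      rw [e']
      exact hB3
    · have h5 := (G.dsel_spec hB5 hp).2.1 hlt'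
      have h6 := hB2 hlt' _ h5
      rw [Real.dist_eq]
      linarith
  · have h2 := continuousAt_nsel (X := X) G.td G.closed (m := (mn A, mx A)) h0 h1 hlt
    exact (ContinuousAt.comp (f := fun B => (mn B, mx B)) (g := nsel X K) h2 hc).continuousWithinAt

/-- angular spread -/
noncomputable def spr (K : Set ℝ) (X : Set E) (A : NonemptyCompacts E) : ℝ :=
  max (mx A - dsel K X A) (dsel K X A - mn A)

lemma Pos.spr_nonneg {A : NonemptyCompacts E} (h : Pos A) : 0 ≤ spr K X A := by
  have := h.mn_le_mx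
  unfold spr
  by_contra hcon
  push Not at hcon
  rw [max_lt_iff] at hcon
  linarith [hcon.1, hcon.2]

lemma Pos.abs_le_spr {A : NonemptyCompacts E} (h : Pos A) {x : E} (hx : x ∈ A) :
    |dir x - dsel K X A| ≤ spr K X A := by
  have h1 := h.le_mx hx
  have h2 := h.mn_le hx
  have h3 : mx A - dsel K X A ≤ spr K X A := le_max_left _ _
  have h4 : dsel K X A - mn A ≤ spr K X A := le_max_right _ _
  rw [abs_le]
  constructor <;> linarith

/-- the parameters of a set -/
noncomputable def par (K : Set ℝ) (X : Set E) (A : NonemptyCompacts E) : ℝ × ℝ × ℝ × ℝ :=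
  (max (low A - spr K X A) 0, cl (spr K X A / low A - 1), cl (3 - spr K X A / low A), dsel K X A)

lemma Good.continuousWithinAt_par (G : Good K X) {A : NonemptyCompacts E}
    (hA : (A : Set E) ⊆ X) (h : Pos A) :
    ContinuousWithinAt (par K X) {B | (B : Set E) ⊆ X} A := by
  have h0 := G.continuousWithinAt_dsel hA h
  have h1 : ContinuousWithinAt (spr K X) {B | (B : Set E) ⊆ X} A :=
    (h.continuousAt_mx.continuousWithinAt.sub h0).max
      (h0.sub h.continuousAt_mn.continuousWithinAt)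
  have h2 : ContinuousWithinAt low {B | (B : Set E) ⊆ X} A := continuous_low.continuousWithinAt
  have h3 : ContinuousWithinAt (fun B => spr K X B / low B) {B | (B : Set E) ⊆ X} A :=
    h1.div h2 h.low_pos.ne'
  unfold par
  refine ContinuousWithinAt.prodMk ((h2.sub h1).max continuousWithinAt_const) ?_
  refine ContinuousWithinAt.prodMk ?_ (ContinuousWithinAt.prodMk ?_ h0)
  · exact continuous_cl.continuousAt.comp_continuousWithinAt (h3.sub continuousWithinAt_const)
  · exact continuous_cl.continuousAt.comp_continuousWithinAt (continuousWithinAt_const.sub h3)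

open Classical in
/-- the retraction, as an operation in the plane -/
noncomputable def ρ (K : Set ℝ) (X : Set E) (A : NonemptyCompacts E) : NonemptyCompacts E :=
  if Pos A then Φ (par K X A) A else hull A

lemma ρ_of_pos {A : NonemptyCompacts E} (h : Pos A) : ρ K X A = Φ (par K X A) A := if_pos h

lemma ρ_of_not_pos {A : NonemptyCompacts E} (h : ¬ Pos A) : ρ K X A = hull A := if_neg h

lemma Good.continuousWithinAt_ρ_pos (G : Good K X) {A : NonemptyCompacts E}
    (hA : (A : Set E) ⊆ X) (h : Pos A) :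
    ContinuousWithinAt (ρ K X) {B | (B : Set E) ⊆ X} A := by
  have h1 : ContinuousWithinAt (fun B => Φ (par K X B) B) {B | (B : Set E) ⊆ X} A :=
    ContinuousAt.comp_continuousWithinAt (f := fun B => (par K X B, B))
      (g := fun q : (ℝ × ℝ × ℝ × ℝ) × NonemptyCompacts E => Φ q.1 q.2)
      continuous_Φ.continuousAt ((G.continuousWithinAt_par hA h).prodMk continuousWithinAt_id)
  refine h1.congr_of_eventuallyEq ?_ (ρ_of_pos h)
  filter_upwards [h.eventually.filter_mono nhdsWithin_le_nhds] with B hB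
  have hp : Pos B := fun x hx => lt_trans (half_pos h.low_pos) (hB x hx)
  rw [ρ_of_pos hp]

lemma connected_ρ (A : NonemptyCompacts E) : IsConnected (ρ K X A : Set E) := by
  by_cases h : Pos A
  · rw [ρ_of_pos h]
    exact connected_Φ _ _ _ _ _
  · rw [ρ_of_not_pos h]
    exact connected_Φ _ _ _ _ _

end Pool.Agent.Helper86.ConeRetract
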