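import Pool.Agent.Helper86.ConeRetract.Rho

set_option autoImplicit false

open Set Topology Filter TopologicalSpace

namespace Pool.Agent.Helper86.ConeRetract

variable {K : Set ℝ} {X : Set E}

/-- a connected set in the cone which contains the vertex is star shaped -/
lemma star_of_connected (hK : IsTotallyDisconnected K) {A : NonemptyCompacts E}
    (hA : (A : Set E) ⊆ M K) (hc : IsPreconnected (A : Set E)) (h0 : (0 : E) ∈ A)
    {x : E} (hx : x ∈ A) {t : ℝ} (ht0 : 0 ≤ t) (ht1 : t ≤ 1) :
    ((t * x.1, t * x.2) : E) ∈ A := by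
  rcases ht0.eq_or_lt with h | ht0'
  · rw [← h, zero_mul, zero_mul]
    exact h0
  rcases ht1.eq_or_lt with h | ht1'
  · rw [h, one_mul, one_mul]
    exact hx
  obtain ⟨z, hz, s, hs, rfl⟩ := hA hx
  rcases hs.1.eq_or_lt with h | hs0
  · simp only [← h, zero_mul, mul_zero]
    exact h0
  by_contra hy
  simp only at hy
  set s0 := t * s with hs0def
  have hs0pos : 0 < s0 := mul_pos ht0' hs0
  have hs0lt : s0 < s := by
    rw [hs0def]
    nlinarith
  -- a neighbourhood of the direction which is missed at the given height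
  have hopen : IsOpen {w : ℝ | ((s0 * w, s0) : E) ∉ (A : Set E)} := by
    have : IsClosed {w : ℝ | ((s0 * w, s0) : E) ∈ (A : Set E)} :=
      A.isCompact.isClosed.preimage (by fun_prop : Continuous fun w : ℝ => ((s0 * w, s0) : E))
    exact this.isOpen_compl
  have hzmem : z ∈ {w : ℝ | ((s0 * w, s0) : E) ∉ (A : Set E)} := by
    show ((s0 * z, s0) : E) ∉ (A : Set E)
    intro h
    apply hy
    have e : t * (s * z) = s0 * z := by rw [hs0def]; ring
    rw [e]
    exact h
  obtain ⟨ε, hε, hball⟩ := Metric.isOpen_iff.mp hopen z hzmem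
  obtain ⟨p, hp1, hp2, hpK⟩ := exists_gap hK (show z - ε < z by linarith)
  obtain ⟨q', hq1, hq2, hqK⟩ := exists_gap hK (show z < z + ε by linarith)
  have hmiss : ∀ w, p < w → w < q' → ((s0 * w, s0) : E) ∉ (A : Set E) := by
    intro w h1 h2
    apply hball
    rw [Metric.mem_ball, Real.dist_eq, abs_lt]
    constructor <;> linarith
  set U : Set E := {u | s0 < u.2 ∧ p * u.2 < u.1 ∧ u.1 < q' * u.2} with hU
  set V : Set E := {u | u.2 < s0 ∨ u.1 < p * u.2 ∨ q' * u.2 < u.1} with hV
  have hpc : Continuous (fun u : E => p * u.2) := by fun_prop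
  have hqc : Continuous (fun u : E => q' * u.2) := by fun_prop
  have hUo : IsOpen U :=
    (isOpen_lt continuous_const continuous_snd).inter
      ((isOpen_lt hpc continuous_fst).inter (isOpen_lt continuous_fst hqc))
  have hVo : IsOpen V :=
    (isOpen_lt continuous_snd continuous_const).union
      ((isOpen_lt continuous_fst hpc).union (isOpen_lt hqc continuous_fst))
  have hcov : (A : Set E) ⊆ U ∪ V := by
    intro u hu
    by_contra hcon
    rw [mem_union, not_or] at hcon
    obtain ⟨hc1, hc2⟩ := hcon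
    simp only [hV, mem_ofPred_eq, not_or, not_lt] at hc2
    obtain ⟨h1, h2, h3⟩ := hc2
    have hupos : 0 < u.2 := lt_of_lt_of_le hs0pos h1
    have hdir := M.dir_mem (hA hu) hupos
    have h1' : p ≤ dir u := by
      unfold dir
      rw [le_div_iff₀ hupos]
      exact h2
    have h2' : dir u ≤ q' := by
      unfold dir
      rw [div_le_iff₀ hupos]
      exact h3
    have h1'' : p < dir u := lt_of_le_of_ne h1' (fun h => hpK (h ▸ hdir))
    have h2'' : dir u < q' := lt_of_le_of_ne h2' (fun h => hqK (h ▸ hdir))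
    rcases h1.eq_or_lt with h4 | h4
    · have h5 := hmiss (dir u) h1'' h2''
      apply h5
      have h6 := fst_eq hupos
      rw [← h4] at h6
      have h7 : ((s0 * dir u, s0) : E) = u := Prod.ext h6.symm h4
      rw [h7]
      exact hu
    · apply hc1
      refine ⟨h4, ?_, ?_⟩
      · unfold dir at h1''
        rwa [lt_div_iff₀ hupos] at h1''
      · unfold dir at h2''
        rwa [div_lt_iff₀ hupos] at h2''
  have hUne : ((A : Set E) ∩ U).Nonempty := by
    refine ⟨(s * z, s), hx, hs0lt, ?_, ?_⟩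
    · show p * s < s * z
      nlinarith
    · show s * z < q' * s
      nlinarith
  have hVne : ((A : Set E) ∩ V).Nonempty := ⟨0, h0, Or.inl hs0pos⟩
  obtain ⟨u, -, hu1, hu2⟩ := hc U V hUo hVo hcov hUne hVne
  obtain ⟨h1, h2, h3⟩ := hu1
  rcases hu2 with h4 | h4 | h4
  · exact absurd h1 (not_lt.mpr h4.le)
  · exact absurd h2 (not_lt.mpr h4.le)
  · exact absurd h3 (not_lt.mpr h4.le)

lemma not_pos_iff {A : NonemptyCompacts E} (hA : (A : Set E) ⊆ M K) :
    ¬ Pos A → (0 : E) ∈ A := by
  intro h
  unfold Pos at h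
  push Not at h
  obtain ⟨x, hx, h1⟩ := h
  obtain ⟨z, hz, s, hs, rfl⟩ := hA hx
  have h2 : s = 0 := le_antisymm h1 hs.1
  rw [h2, zero_mul] at hx
  exact hx


/-- a compact connected subset of the cone containing the vertex is star shaped -/
lemma Good.star (G : Good K X) (h0 : (0 : E) ∈ X) {x : E} (hx : x ∈ X) {t : ℝ} (ht0 : 0 ≤ t)
    (ht1 : t ≤ 1) : ((t * x.1, t * x.2) : E) ∈ X :=
  star_of_connected (A := ⟨⟨X, G.compact⟩, ⟨0, h0⟩⟩) G.td G.sub G.conn h0 hx ht0 ht1

/-- points of the leg of a given point of `X`, below that point -/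
lemma Good.below (G : Good K X) (h0 : (0 : E) ∈ X) {y : E} (hy : y ∈ X) (hpos : 0 < y.2) {u : ℝ}
    (hu0 : 0 ≤ u) (hu1 : u ≤ y.2) : ((u * dir y, u) : E) ∈ X := by
  have h1 := G.star h0 hy (t := u / y.2) (div_nonneg hu0 hpos.le) ((div_le_one hpos).mpr hu1)
  have e1 : u / y.2 * y.1 = u * dir y := by
    unfold dir
    ring
  have e2 : u / y.2 * y.2 = u := by field_simp
  rwa [e1, e2] at h1

/-- if the vertex is not in `X` then all points of `X` have the same direction -/
lemma Good.same_dir (G : Good K X) (h0 : (0 : E) ∉ X) :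
    (∀ x ∈ X, 0 < x.2) ∧ (dir '' X).Subsingleton := by
  have hpos : ∀ x ∈ X, 0 < x.2 := by
    intro x hx
    obtain ⟨z, hz, s, hs, rfl⟩ := G.sub hx
    refine lt_of_le_of_ne hs.1 ?_
    intro h
    apply h0
    have h' : (0 : ℝ) = s := h
    rw [← h', zero_mul] at hx
    exact hx
  refine ⟨hpos, ?_⟩
  have hc : ContinuousOn dir X := by
    unfold dir
    exact ContinuousOn.div continuous_fst.continuousOn continuous_snd.continuousOn
      fun x hx => (hpos x hx).ne'
  apply G.td
  · rintro _ ⟨x, hx, rfl⟩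
    exact M.dir_mem (G.sub hx) (hpos x hx)
  · exact G.conn.image _ hc

end Pool.Agent.Helper86.ConeRetract
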